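import Pool.Agent.Work.MP_6cbae3_ch.Final

/-!
# A Baire Asplund space `E` such that `E × ℝ` is not Asplund (under `cof(M) = ℵ₁`)

`Pool.AP.CofM`: in every Polish space there are at most `ℵ₁` meagre sets such that every meagre
set is contained in one of them.  The continuum hypothesis implies this (first part).

`Pool.AP.IsAsplund E`: every continuous convex function `f` on a nonempty open convex set `D ⊆ E`
is Fréchet differentiable (uniformly on von Neumann bounded sets) at the points of a dense `Gδ`
subset of `D`.

Under this hypothesis there is a Hausdorff real locally convex space `E` which is a Baire space
and Asplund, while `E × ℝ` is not Asplund.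

Idea.  `E` is the linear span of a sequence `x α`, `α < ω₁`, of mutually generic elements of
`C(K)`, `K` the Cantor set, and of sequences of (rough) bump functions shrinking to the point
`q α` at which `x α + t α * b + c` attains its maximum, where `b`, `c` are fixed generic functions
and the numbers `t α` are generic as well.  The topology is given by the norm and by `ω₁` linear
functionals, which vanish on initial segments and kill all unwanted bounded sets.  The function
`max (x + s * b + c)` on `E × ℝ` is not Fréchet differentiable at the points `(x α, t α)`, which
form a nonmeagre set.  On the other hand a continuous convex function on `E` cannot see the points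
`q α` at generic elements of `E`: near a linear combination with real coefficients the number of
points which can be seen at scale `δ` is at most of order `δ ^ (- (M + 1) / 2)` (`M` the number of
real parameters; Moreau envelopes in the parameters), while the function `max (x + t * b + c)`
exposes more than `M₀ * δ ^ (- (M + 1) / 2)` points.
-/

set_option autoImplicit false

namespace Pool.Agent.Results.MP_6cbae3_an.BaireCounterexample

open Pool.AP

/-- **Main theorem.**  The continuum hypothesis implies the hypothesis `CofM` (`cof(M) = ℵ₁`),
and `CofM` implies that there is a Hausdorff real locally convex space `E` which is a Baire space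
and an Asplund space such that `E × ℝ` is not an Asplund space. -/
theorem result :
    ((Cardinal.aleph 1 : Cardinal.{0}) = Cardinal.continuum → CofM) ∧ (CofM →
      ∃ (E : Type) (_ : AddCommGroup E) (_ : Module ℝ E) (_ : TopologicalSpace E)
        (_ : IsTopologicalAddGroup E) (_ : ContinuousSMul ℝ E),
        T2Space E ∧ LocallyConvexSpace ℝ E ∧ BaireSpace E ∧ IsAsplund E ∧
          ¬ IsAsplund (E × ℝ)) :=
  p_FINAL

end Pool.Agent.Results.MP_6cbae3_an.BaireCounterexample
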