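import Pool.Agent.Work.MP_6cbae3_an.NonBaireMain

/-!
# Products of non-Baire Asplund spaces with the real line

Let `E` be a real locally convex space that is Asplund, in the sense that every continuous convex
function on a nonempty open convex subset of `E` is Fréchet differentiable (uniformly on bounded
sets) at the points of a dense `Gδ` subset.  If `E` is not a Baire space then `E × ℝ` is Asplund.

Idea.  For `σ`, `r > 0` and `K` put `H(x) = sup {f(x, s) - K (s - σ) ^ 2 : |s - σ| ≤ r}`, a
continuous convex function on the open convex set of all `x` with `{x} × [σ - r, σ + r] ⊆ D`.
If `H` is Fréchet differentiable at `x` and the supremum is attained at `s` with `|s - σ| < r`,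
then `f` is Fréchet differentiable at `(x, s)`.  This gives countably many `Gδ` sets `T j` of
points of differentiability, with dense union.  If `E` is the union of an increasing sequence of
closed nowhere dense sets `F j`, then the union of the sets `T j \ (F j × ℝ)` is a dense `Gδ` set.
-/

set_option autoImplicit false

namespace Pool.Agent.Results.MP_6cbae3_an.NonBaire

/-- **Main theorem.**  If `E` is a Hausdorff real locally convex space that is Asplund and is not
a Baire space, then `E × ℝ` is Asplund. -/
theorem result (E : Type*) [AddCommGroup E] [Module ℝ E] [TopologicalSpace E]
    [IsTopologicalAddGroup E] [ContinuousSMul ℝ E] [LocallyConvexSpace ℝ E] [T2Space E]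
    (hE : IsAsplund E) (hB : ¬ BaireSpace E) : IsAsplund (E × ℝ) :=
  main hE hB

end Pool.Agent.Results.MP_6cbae3_an.NonBaire
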