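import Pool.Agent.Work.MP_6cbae3_an_helper78.Main
import Pool.Agent.Work.MP_6cbae3_an_helper29.Main

/-!
# Asplund spaces without a continuous norm, and what remains of the problem

Let `E` be a real locally convex space that is Asplund and has no continuous norm (for example an
infinite product of nonzero spaces, an infinite dimensional space with its weak topology, or a
space of continuous functions with the topology of pointwise convergence on an infinite set), Baire
or not, metrizable or not. Then `E × ℝ` is Asplund.

Idea. Let `f` be a continuous convex function on an open convex subset `D` of `E × ℝ`. There is a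
continuous seminorm `q` such that `D` contains, for some `z₀`, the set `z₀ + {q < 1}` and `f` is
bounded there. Choose `v ≠ 0` in `E` with `q (v, 0) = 0`. By convexity `D` and `f` are invariant
under the translations by the multiples of `(v, 0)`. So `f = g ∘ S` on `D`, where `g` is a
continuous convex function on an open convex subset of `E`, and `S` is the open continuous linear
map `S (x, t) = x - l x • v + t • v` from `E × ℝ` onto `E`, for a continuous linear functional `l`
with `l v = 1`.

Together with the theorems on non-Baire spaces and on metrizable spaces this reduces the problem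
to Baire spaces `E` that are not metrizable and have a continuous norm.
-/

set_option autoImplicit false

namespace Pool.Agent.Results.MP_6cbae3_an.NoContinuousNorm

section defs

variable {E : Type*} [AddCommGroup E] [Module ℝ E] [TopologicalSpace E]

/-- `f` is Fréchet differentiable at `x₀`: there is a continuous linear functional `f'` such that
for every bounded set `B` and every `ε > 0` there is `δ > 0` with
`sup {|(f (x₀ + t x) - f x₀) / t - f' x| : x ∈ B} < ε` for `0 < |t| < δ`.  (For `f` defined on a
neighbourhood `D` of `x₀` its values outside `D` do not matter, since `x₀ + t B ⊆ D` for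
small `t`.) -/
def FrechetDiffAt (f : E → ℝ) (x₀ : E) : Prop :=
  ∃ f' : E →L[ℝ] ℝ, ∀ B : Set E, Bornology.IsVonNBounded ℝ B → ∀ ε : ℝ, 0 < ε →
    ∃ δ : ℝ, 0 < δ ∧ ∀ t : ℝ, 0 < |t| → |t| < δ →
      ∃ r < ε, ∀ x ∈ B, |(f (x₀ + t • x) - f x₀) / t - f' x| ≤ r

variable (E) in
/-- `E` is Asplund: every continuous convex function on a nonempty open convex set `D` is Fréchet
differentiable at all points of some dense `Gδ` subset of `D`. -/
def IsAsplund : Prop :=
  ∀ (D : Set E) (f : E → ℝ), D.Nonempty → IsOpen D → Convex ℝ D → ConvexOn ℝ D f →
    ContinuousOn f D → ∃ G ⊆ D, IsGδ G ∧ D ⊆ closure G ∧ ∀ x ∈ G, FrechetDiffAt f x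

variable (E) in
/-- `E` has a continuous norm: a continuous seminorm that vanishes only at zero. -/
def HasContinuousNorm : Prop :=
  ∃ p : Seminorm ℝ E, Continuous p ∧ ∀ v : E, p v = 0 → v = 0

end defs

/-- **Main theorem.** Let `E` be a Hausdorff real locally convex space that is Asplund and has no
continuous norm. Then `E × ℝ` is Asplund. -/
theorem main (E : Type*) [AddCommGroup E] [Module ℝ E] [TopologicalSpace E]
    [IsTopologicalAddGroup E] [ContinuousSMul ℝ E] [LocallyConvexSpace ℝ E] [T2Space E]
    (hE : IsAsplund E) (hN : ¬ HasContinuousNorm E) : IsAsplund (E × ℝ) := by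
  refine Pool.Agent.Work.MP_6cbae3_an_helper78.main (E := E) hE fun p hp => ?_
  by_contra hcon
  exact hN ⟨p, hp, fun v hv => by_contra fun hv0 => hcon ⟨v, hv0, hv⟩⟩

/-- (1) Let `E` be a Hausdorff real locally convex space that is Asplund and has no continuous
norm. Then `E × ℝ` is Asplund.

(2) Consequently, if `E × ℝ` is Asplund for all those Asplund Hausdorff real locally convex spaces
`E` that are Baire spaces, are not first countable (not metrizable) and have a continuous norm, then
`E × ℝ` is Asplund for all Asplund Hausdorff real locally convex spaces `E`. -/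
theorem result.{u} :
    (∀ (E : Type u) [AddCommGroup E] [Module ℝ E] [TopologicalSpace E]
      [IsTopologicalAddGroup E] [ContinuousSMul ℝ E] [LocallyConvexSpace ℝ E] [T2Space E],
      IsAsplund E → ¬ HasContinuousNorm E → IsAsplund (E × ℝ)) ∧
    ((∀ (E : Type u) [AddCommGroup E] [Module ℝ E] [TopologicalSpace E]
      [IsTopologicalAddGroup E] [ContinuousSMul ℝ E] [LocallyConvexSpace ℝ E] [T2Space E],
      IsAsplund E → BaireSpace E → ¬ FirstCountableTopology E → HasContinuousNorm E →
        IsAsplund (E × ℝ)) →
      ∀ (E : Type u) [AddCommGroup E] [Module ℝ E] [TopologicalSpace E]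
        [IsTopologicalAddGroup E] [ContinuousSMul ℝ E] [LocallyConvexSpace ℝ E] [T2Space E],
        IsAsplund E → IsAsplund (E × ℝ)) := by
  refine ⟨fun E _ _ _ _ _ _ _ hE hN => main E hE hN, fun h E _ _ _ _ _ _ _ hE => ?_⟩
  by_cases h1 : BaireSpace E
  swap
  · exact Pool.Agent.Results.MP_6cbae3_an.NonBaire.main (E := E) hE h1
  by_cases h2 : FirstCountableTopology E
  · refine Pool.Agent.Work.MP_6cbae3_an_helper29.isAsplund_prod_real (E := E) hE fun p hp => ?_
    apply Pool.Agent.Work.MP_6cbae3_an_helper29.webbed_of_equiv
      (ContinuousLinearEquiv.funUnique Unit ℝ E).symm p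
    apply Pool.Agent.Work.MP_6cbae3_an_helper29.webbed_pi
    exact hp.comp (ContinuousLinearEquiv.funUnique Unit ℝ E).continuous
  by_cases h3 : HasContinuousNorm E
  · exact h E hE h1 h2 h3
  · exact main E hE h3

end Pool.Agent.Results.MP_6cbae3_an.NoContinuousNorm
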