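import Mathlib
import Pool.Agent.Work.MP_6cbae3_an_helper29.Main

/-!
# Asplund products of metrizable spaces with the real line

Let `E` be a product of an arbitrary family of first countable (for example metrizable) real
locally convex spaces; in particular `E` may be any metrizable locally convex space, or any product
of Fréchet spaces.  If `E` is Asplund then `E × ℝ` is Asplund.

Idea (Baire case).  For a continuous convex function `f` on an open convex subset of `F = E × ℝ`
suppose that the set of points at which `f` is not Fréchet differentiable is not meagre.  A Cantor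
scheme of nonempty open sets, in each of which a suitable set of bad points is everywhere
non-meagre, gives vectors `h σ` (`σ` a finite `0-1` sequence) that form a bounded set and separate
the subgradients of `f` on the two halves.  An ultralimit of averages of subgradients is then a
dyadic tree of functionals, whose supremum is a continuous convex function that is nowhere Fréchet
differentiable, although `F` is a Fréchet differentiability space.
-/

set_option autoImplicit false

open Set Topology

namespace Pool.Agent.Results.MP_6cbae3_an.ProductsOfMetrizable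

section defs

variable {E : Type*} [AddCommGroup E] [Module ℝ E] [TopologicalSpace E]

/-- `f` is Fréchet differentiable at `x₀`: there is a continuous linear functional `f'` such that
for every bounded set `B` and every `ε > 0` there is `δ > 0` with
`sup {|(f (x₀ + t x) - f x₀) / t - f' x| : x ∈ B} < ε` for `0 < |t| < δ`.  (For `f` defined on a
neighbourhood `D` of `x₀` its values outside `D` do not matter, since `x₀ + t B ⊆ D` for
small `t`.) -/
def FrechetDiffAt (f : E → ℝ) (x₀ : E) : Prop :=
  ∃ f' : E →L[ℝ] ℝ, ∀ B : Set E, Bornology.IsVonNBounded ℝ B → ∀ ε : ℝ, 0 < ε →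
    ∃ δ : ℝ, 0 < δ ∧ ∀ t : ℝ, 0 < |t| → |t| < δ →
      ∃ r < ε, ∀ x ∈ B, |(f (x₀ + t • x) - f x₀) / t - f' x| ≤ r

variable (E) in
/-- `E` is Asplund: every continuous convex function on a nonempty open convex set `D` is Fréchet
differentiable at all points of some dense `Gδ` subset of `D`. -/
def IsAsplund : Prop :=
  ∀ (D : Set E) (f : E → ℝ), D.Nonempty → IsOpen D → Convex ℝ D → ConvexOn ℝ D f →
    ContinuousOn f D → ∃ G ⊆ D, IsGδ G ∧ D ⊆ closure G ∧ ∀ x ∈ G, FrechetDiffAt f x

end defs

/-- Let `E` be a real locally convex space that is isomorphic to a product of first countable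
locally convex spaces `G i` (`i ∈ I`, an arbitrary family; one factor `G = E` if `E` itself is
first countable, e.g. metrizable).  If `E` is Asplund then `E × ℝ` is Asplund. -/
theorem result (E : Type*) [AddCommGroup E] [Module ℝ E] [TopologicalSpace E]
    [IsTopologicalAddGroup E] [ContinuousSMul ℝ E] [LocallyConvexSpace ℝ E]
    {I : Type*} (G : I → Type*) [∀ i, AddCommGroup (G i)] [∀ i, Module ℝ (G i)]
    [∀ i, TopologicalSpace (G i)] [∀ i, IsTopologicalAddGroup (G i)]
    [∀ i, ContinuousSMul ℝ (G i)] [∀ i, LocallyConvexSpace ℝ (G i)]
    [∀ i, FirstCountableTopology (G i)] (e : E ≃L[ℝ] (∀ i, G i)) (h : IsAsplund E) :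
    IsAsplund (E × ℝ) := by
  refine Pool.Agent.Work.MP_6cbae3_an_helper29.isAsplund_prod_real (E := E) h (fun p hp => ?_)
  apply Pool.Agent.Work.MP_6cbae3_an_helper29.webbed_of_equiv e p
  apply Pool.Agent.Work.MP_6cbae3_an_helper29.webbed_pi
  exact hp.comp e.symm.continuous

/-- The case of a first countable space `E`. -/
theorem firstCountable (E : Type*) [AddCommGroup E] [Module ℝ E] [TopologicalSpace E]
    [IsTopologicalAddGroup E] [ContinuousSMul ℝ E] [LocallyConvexSpace ℝ E]
    [FirstCountableTopology E] (h : IsAsplund E) : IsAsplund (E × ℝ) :=
  result E (fun _ : Unit => E) (ContinuousLinearEquiv.funUnique Unit ℝ E).symm h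

end Pool.Agent.Results.MP_6cbae3_an.ProductsOfMetrizable
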